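import Pool.Agent.X263.Bk.Pid

/-!
Let `R` be a factorial domain, `Γ` a group with unique products and `E` an idempotent matrix over
`RΓ` whose entries off one row and one column are of the form `r · g i · (g j)⁻¹` with `r` in `R`.
Then the projective module of `E` is stably isomorphic to the one induced from the projective
`R`-module of the augmentation of `E`; it is stably free if `R` is a principal ideal domain.
-/

set_option autoImplicit false

namespace Pool.Agent.Results.MP_1a2884_al.BorderedIdempotents

open Matrix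

theorem result (R : Type) [CommRing R] [IsDomain R] [UniqueFactorizationMonoid R]
    (Γ : Type) [Group Γ] [UniqueProds Γ] (n : ℕ)
    (E : Matrix (Fin n) (Fin n) (MonoidAlgebra R Γ)) (hE : E * E = E) (i₀ j₀ : Fin n)
    (g : Fin n → Γ)
    (h : ∀ i j, i ≠ i₀ → j ≠ j₀ → ∃ r : R, E i j = MonoidAlgebra.single (g i * (g j)⁻¹) r) :
    (∃ k : ℕ, Nonempty ((LinearMap.range E.vecMulLinear × (Fin k → MonoidAlgebra R Γ))
      ≃ₗ[MonoidAlgebra R Γ]
      (LinearMap.range (E.map
        (fun x => MonoidAlgebra.single (1 : Γ) (x.coeff.sum fun _ r => r))).vecMulLinear ×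
        (Fin k → MonoidAlgebra R Γ)))) ∧
    (IsPrincipalIdealRing R → ∃ k r : ℕ,
      Nonempty ((LinearMap.range E.vecMulLinear × (Fin k → MonoidAlgebra R Γ))
      ≃ₗ[MonoidAlgebra R Γ] ((Fin r → MonoidAlgebra R Γ) × (Fin k → MonoidAlgebra R Γ)))) := by
  constructor
  · have h1 : E.map (fun x => MonoidAlgebra.single (1 : Γ) (x.coeff.sum fun _ r => r)) =
        E.map X263.Bc.psi := by
      ext1 i j
      exact (X263.Bk.psi_eq _).symm
    rw [h1]
    exact X263.Bk.stable_border n E hE i₀ j₀ g h
  · intro hR
    exact X263.Bk.free_border n E hE i₀ j₀ g h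

end Pool.Agent.Results.MP_1a2884_al.BorderedIdempotents
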