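import Pool.Agent.Y84.PH.G
import Pool.Agent.X270.Comm.Cone

/-!
# `K₀(K[G])`, cyclic cohomology of positive even degree and commensurating actions

Let `K` be a field of characteristic zero (a regular ring) and `G` a group. A subset `A` of a `G`-set `X`
is commensurated if `g A` and `A` differ by finitely many points for all `g ∈ G` (equivalently, `G` acts
on a CAT(0) cube complex, of finite or infinite dimension); `g` is unbounded if the symmetric
differences of `g ^ m A` and `A` have unbounded cardinality, for some such action.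

If `G` is torsion-free and `K₀(K) → K₀(K[G])` is surjective, then all cycles `(Ω, δ, T)` of dimension
`2 n ≥ 2` in the sense of Connes vanish on all idempotent matrices `e` over `K[G]`:
`T (e (δ e) ^ (2 n)) = 0`. We prove this, if all `g ≠ 1` are unbounded, for all cycles whose values on the
elements of each finitely generated subgroup lie in a finitely generated module over a finitely
generated subring of `K`. Here `G` may have torsion, if the cycle vanishes at the bounded elements `≠ 1`.

Examples: torsion-free groups acting freely and properly on CAT(0) cube complexes; torsion-free groups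
of bijections of a Cantor set `D ^ ω` which map almost all cones by similarities of a self-similar
torsion group `Γ`, for example torsion-free subgroups of the Higman-Thompson groups and of Röver's group.
-/

set_option autoImplicit false

namespace Pool.Agent.Results.MP_1a2884_al.CommensuratingCycles

open Pool.Agent.X270.Comm

universe w u1 u2 u3 u4 u5

/-- `(Ω, δ, T)` is a cycle of dimension `N` with values in the vector space `M`: `Ω` is a graded
algebra with homogeneous components `𝒜 i`, `δ` is a differential of degree one, and `T` is a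
closed graded trace which vanishes outside degree `N`. -/
structure IsCycle {K : Type u1} [Field K] {Ω : Type u4} [Ring Ω] [Algebra K Ω] {M : Type u5}
    [AddCommGroup M] [Module K M] (N : ℕ) (𝒜 : ℕ → Submodule K Ω) [GradedAlgebra 𝒜]
    (δ : Ω →ₗ[K] Ω) (T : Ω →ₗ[K] M) : Prop where
  deg : ∀ i, ∀ x ∈ 𝒜 i, δ x ∈ 𝒜 (i + 1)
  sq : ∀ x, δ (δ x) = 0
  leibniz : ∀ i, ∀ x ∈ 𝒜 i, ∀ y, δ (x * y) = δ x * y + (-1) ^ i * (x * δ y)
  closed : ∀ x, T (δ x) = 0
  trace : ∀ i j, ∀ x ∈ 𝒜 i, ∀ y ∈ 𝒜 j, T (x * y) = T ((-1) ^ (i * j) * (y * x))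
  dim : ∀ i, i ≠ N → ∀ x ∈ 𝒜 i, T x = 0

/-- The value of the cycle on the group elements `a`, `b₁`, …, `b_r`. -/
noncomputable def value {K : Type u1} [Field K] {G : Type u2} [Group G] {Ω : Type u4} [Ring Ω]
    [Algebra K Ω] {M : Type u5} [AddCommGroup M] [Module K M] (δ : Ω →ₗ[K] Ω) (T : Ω →ₗ[K] M)
    (ρ : MonoidAlgebra K G →ₐ[K] Ω) (a : G) (l : List G) : M :=
  T (ρ (MonoidAlgebra.single a 1) * (l.map fun b => δ (ρ (MonoidAlgebra.single b 1))).prod)

/-- For every finitely generated subgroup `H` the values of the cycle on the elements of `H` lie in the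
module generated by a finite set over the subring generated by a finite set. -/
def FiniteType {K : Type u1} [Field K] {G : Type u2} [Group G] {Ω : Type u4} [Ring Ω]
    [Algebra K Ω] {M : Type u5} [AddCommGroup M] [Module K M] (δ : Ω →ₗ[K] Ω) (T : Ω →ₗ[K] M)
    (ρ : MonoidAlgebra K G →ₐ[K] Ω) (N : ℕ) : Prop :=
  ∀ H : Subgroup G, H.FG → ∃ (s : Finset K) (F : Finset M),
    ∀ (a : H) (l : List H), l.length = N →
      value δ T ρ a (l.map Subtype.val) ∈
        Submodule.span (Algebra.adjoin ℤ (s : Set K)) (F : Set M)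

/-- `G` has a commensurating action such that the symmetric differences of `g ^ m A` and `A` have
unbounded cardinality. -/
def Unbounded {G : Type u2} [Group G] (g : G) : Prop :=
  ∃ (X : Type w) (_ : MulAction G X) (A : Set X), Commensurated G A ∧
    ∀ b : ℕ, ∃ m : ℕ, b < (moved A (g ^ m)).ncard

theorem main {G : Type u2} [Group G]
    (hG : {p : ℕ | p.Prime ∧ ∀ x : G, x ^ p = 1 → x = 1}.Infinite)
    (K : Type u1) [Field K] [CharZero K] (d : Type u3)
    [Fintype d] [DecidableEq d] (e : Matrix d d (MonoidAlgebra K G)) (he : e * e = e)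
    (Ω : Type u4) [Ring Ω] [Algebra K Ω] (𝒜 : ℕ → Submodule K Ω) [GradedAlgebra 𝒜]
    (M : Type u5) [AddCommGroup M] [Module K M] (δ : Ω →ₗ[K] Ω) (T : Ω →ₗ[K] M)
    (n : ℕ) (hn : 1 ≤ n) (hT : IsCycle (2 * n) 𝒜 δ T)
    (ρ : MonoidAlgebra K G →ₐ[K] Ω) (hρ : ∀ a, ρ a ∈ 𝒜 0)
    (hval : FiniteType δ T ρ (2 * n))
    (hker : ∀ (a : G) (l : List G), l.length = 2 * n → a * l.prod ≠ 1 →
      ¬ Unbounded.{w} (a * l.prod) → value δ T ρ a l = 0) :
    T ((e.map ρ) * ((e.map ρ).map δ) ^ (2 * n)).trace = 0 := by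
  classical
  have hcyc : Pool.Agent.H23R2.Ch.IsCycle (2 * n) 𝒜 δ T :=
    ⟨hT.deg, hT.sq, hT.leibniz, hT.closed, hT.trace, hT.dim⟩
  have hmap : ∀ (H : Subgroup G) (a : H) (l : List H),
      value δ T ρ a (l.map Subtype.val) = T (ρ (MonoidAlgebra.single (a : G) 1) *
        (l.map fun b : H => δ (ρ (MonoidAlgebra.single (b : G) 1))).prod) := by
    intro H a l
    unfold value
    rw [List.map_map]
    rfl
  let W : Finset G := Finset.univ.biUnion fun i => Finset.univ.biUnion fun j =>
    (e i j).coeff.support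
  have hFG : (Subgroup.closure (W : Set G)).FG := ⟨W, rfl⟩
  have hW : ∀ i j g, (e i j).coeff g ≠ 0 → g ∈ Subgroup.closure (W : Set G) := by
    intro i j g hg
    apply Subgroup.subset_closure
    have h1 : g ∈ W := by
      simp only [W, Finset.mem_biUnion, Finset.mem_univ, true_and]
      exact ⟨i, j, Finsupp.mem_support_iff.2 hg⟩
    exact_mod_cast h1
  obtain ⟨s, F, hsF⟩ := hval _ hFG
  simp only [hmap] at hsF
  refine Pool.Agent.Y84.PH.cyc_field e he _ hW hn hcyc hρ s F hsF ?_ (Or.inl ?_)
  · rintro g hg ⟨m, J, hm, hJ, hdiv⟩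
    left
    intro a l hl hconj
    rw [← hmap]
    have hprod : (a : G) * (l.map Subtype.val).prod = ((a * l.prod : Subgroup.closure (W : Set G)) : G) := by
      rw [Subgroup.coe_mul]
      congr 1
      exact (map_list_prod (Subgroup.closure (W : Set G)).subtype l).symm
    have hc2 : IsConj (g : G) ((a : G) * (l.map Subtype.val).prod) := by
      rw [hprod]
      obtain ⟨c, hc⟩ := isConj_iff.1 hconj
      exact isConj_iff.2 ⟨c, by simpa using congrArg Subtype.val hc⟩
    apply hker _ _ (by rw [List.length_map, hl])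
    · intro h1
      rw [h1] at hc2
      exact hg (Subtype.ext (isConj_one_right.1 hc2.symm))
    · rintro ⟨X, _, A, hA, hU⟩
      have h3 := hdiv (m + 1) (by simp)
      refine not_conj hA (g : G) (unbounded_conj hA hc2.symm hU) (k := (m + 1) ^ J) ?_ ?_
      · exact (show 2 ≤ m + 1 by omega).trans (Nat.le_self_pow (by omega) _)
      · obtain ⟨c, hc⟩ := isConj_iff.1 h3
        exact isConj_iff.2 ⟨c, by simpa using congrArg Subtype.val hc⟩
  · refine hG.mono ?_
    rintro p ⟨hp, hp2⟩
    exact ⟨hp, fun x hx => Subtype.ext (hp2 x (congrArg Subtype.val hx))⟩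

/-- Let `K` be a field of characteristic zero, `G` a group, `e` an idempotent matrix over `K[G]` and
`(Ω, δ, T)` a cycle over `K[G]` of dimension `2 n ≥ 2` of finite type.
(1) If `G` has no `p`-torsion for infinitely many primes `p`, and the cycle vanishes on the group
elements `a, b₁, …, b_{2n}` whose product is `≠ 1` and not unbounded, then `T (e (δ e) ^ (2 n)) = 0`.
(2) If `G` is torsion-free and acts faithfully on `C ≃ D × C` by almost similarities of a self-similar
torsion group `Γ`, then `T (e (δ e) ^ (2 n)) = 0`. -/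
theorem result {G : Type u2} [Group G]
    (K : Type u1) [Field K] [CharZero K] (d : Type u3)
    [Fintype d] [DecidableEq d] (e : Matrix d d (MonoidAlgebra K G)) (he : e * e = e)
    (Ω : Type u4) [Ring Ω] [Algebra K Ω] (𝒜 : ℕ → Submodule K Ω) [GradedAlgebra 𝒜]
    (M : Type u5) [AddCommGroup M] [Module K M] (δ : Ω →ₗ[K] Ω) (T : Ω →ₗ[K] M)
    (n : ℕ) (hn : 1 ≤ n) (hT : IsCycle (2 * n) 𝒜 δ T)
    (ρ : MonoidAlgebra K G →ₐ[K] Ω) (hρ : ∀ a, ρ a ∈ 𝒜 0) (hval : FiniteType δ T ρ (2 * n)) :
    ({p : ℕ | p.Prime ∧ ∀ x : G, x ^ p = 1 → x = 1}.Infinite →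
      (∀ (a : G) (l : List G), l.length = 2 * n → a * l.prod ≠ 1 →
        ¬ Unbounded.{w} (a * l.prod) → value δ T ρ a l = 0) →
      T ((e.map ρ) * ((e.map ρ).map δ) ^ (2 * n)).trace = 0) ∧
    ((∀ (g : G) (m : ℕ), 0 < m → g ^ m = 1 → g = 1) →
      ∀ (C : Type w) (D : Type) [Nonempty C] [Nontrivial D] [Finite D] (c : D × C ≃ C)
        (Γ : Subgroup (Equiv.Perm C)), SelfSimilar c Γ → (∀ γ ∈ Γ, IsOfFinOrder γ) →
        ∀ φ : G →* Equiv.Perm C, Function.Injective φ → (∀ g : G, (bad c Γ (φ g)).Finite) →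
          T ((e.map ρ) * ((e.map ρ).map δ) ^ (2 * n)).trace = 0) := by
  refine ⟨fun hG hker => main.{w} hG K d e he Ω 𝒜 M δ T n hn hT ρ hρ hval hker, ?_⟩
  intro hG C D _ _ _ c Γ hΓ hΓt φ hinj hφ
  refine main.{w} (Nat.infinite_setOfPred_prime.mono fun p hp =>
    ⟨hp, fun x hx => hG x p (Nat.Prime.pos hp) hx⟩) K d e he Ω 𝒜 M δ T n hn hT ρ hρ hval ?_
  intro a l _ hne hU
  exfalso
  apply hU
  refine ⟨Set (C → C), actS φ, cls c Γ, commensurated φ hφ, ?_⟩
  by_contra hcon
  push Not at hcon
  obtain ⟨B, hB⟩ := hcon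
  obtain ⟨m, hm, h1⟩ := isOfFinOrder_iff_pow_eq_one.1
    (finOrder_of_bounded hΓ hΓt φ hinj hφ (a * l.prod) B hB)
  exact hne (hG _ m hm h1)

end Pool.Agent.Results.MP_1a2884_al.CommensuratingCycles
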