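import Pool.Agent.Y84.PH.G
import Pool.Agent.X263.PL.Conj

/-!
# `K₀(K[G])` and cyclic cohomology of positive even degree for piecewise linear groups

Let `K` be a field of characteristic zero (a regular ring) and `G` a group of increasing piecewise
affine bijections, with finitely many pieces, of a linearly ordered field `L`; for example Thompson's
group `F`, or any group of piecewise linear orientation preserving homeomorphisms of a compact
interval or of the real line. If `K₀(K) → K₀(K[G])` is surjective, then all cycles `(Ω, δ, T)` of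
dimension `2 n ≥ 2` in the sense of Connes vanish on all idempotent matrices `e` over `K[G]`:
`T (e (δ e) ^ (2 n)) = 0`. We prove this for all cycles whose values on the elements of each finitely
generated subgroup lie in a finitely generated module over a finitely generated subring of `K`.

Idea of the proof. By the general theorem of the library (`Pool.Agent.Y84.PH`) it is sufficient that
no element `g ≠ 1` of a finitely generated subgroup `H` is conjugate in `H` to `g ^ (q ^ J)` for all
`q` prime to some `m`. If `g` has a fixed point then the slopes at the fixed points show that `g` is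
not conjugate to any proper power; otherwise one considers the germs at `-∞`, which form a linear
group, and roots in finitely generated linear groups.
-/

set_option autoImplicit false

namespace Pool.Agent.Results.MP_1a2884_al.PiecewiseLinearCycles

open Pool.Agent.X263.PL

universe t u1 u2 u3 u4 u5

/-- `f : L → L` is piecewise affine with finitely many pieces: there is a finite set `S` such that
`f` is affine on every closed interval which has no point of `S` in its interior. -/
def PiecewiseAffine {L : Type t} [Field L] [LinearOrder L] (f : L → L) : Prop :=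
  ∃ S : Finset L, ∀ a b : L, a ≤ b → (∀ s ∈ S, ¬ (a < s ∧ s < b)) →
    ∃ m c : L, ∀ x, a ≤ x → x ≤ b → f x = m * x + c

/-- `(Ω, δ, T)` is a cycle of dimension `N` with values in the vector space `M`: `Ω` is a graded
algebra with homogeneous components `𝒜 i`, `δ` is a differential of degree one, and `T` is a
closed graded trace which vanishes outside degree `N`. -/
structure IsCycle {K : Type u1} [Field K] {Ω : Type u4} [Ring Ω] [Algebra K Ω] {M : Type u5}
    [AddCommGroup M] [Module K M] (N : ℕ) (𝒜 : ℕ → Submodule K Ω) [GradedAlgebra 𝒜]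
    (δ : Ω →ₗ[K] Ω) (T : Ω →ₗ[K] M) : Prop where
  deg : ∀ i, ∀ x ∈ 𝒜 i, δ x ∈ 𝒜 (i + 1)
  sq : ∀ x, δ (δ x) = 0
  leibniz : ∀ i, ∀ x ∈ 𝒜 i, ∀ y, δ (x * y) = δ x * y + (-1) ^ i * (x * δ y)
  closed : ∀ x, T (δ x) = 0
  trace : ∀ i j, ∀ x ∈ 𝒜 i, ∀ y ∈ 𝒜 j, T (x * y) = T ((-1) ^ (i * j) * (y * x))
  dim : ∀ i, i ≠ N → ∀ x ∈ 𝒜 i, T x = 0

/-- The value of the cycle on the group elements `a`, `b₁`, …, `b_r`. -/
noncomputable def value {K : Type u1} [Field K] {G : Type u2} [Group G] {Ω : Type u4} [Ring Ω]
    [Algebra K Ω] {M : Type u5} [AddCommGroup M] [Module K M] (δ : Ω →ₗ[K] Ω) (T : Ω →ₗ[K] M)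
    (ρ : MonoidAlgebra K G →ₐ[K] Ω) (a : G) (l : List G) : M :=
  T (ρ (MonoidAlgebra.single a 1) * (l.map fun b => δ (ρ (MonoidAlgebra.single b 1))).prod)

/-- Let `G` be a group of piecewise affine increasing bijections of the ordered field `L` with
finitely many pieces, `K` a field of characteristic zero, `e` an idempotent matrix over `K[G]` and
`(Ω, δ, T)` a cycle over `K[G]` of dimension `2 n ≥ 2` with values in the vector space `M`, such that
for every finitely generated subgroup `H` of `G` the values of the cycle on the elements of `H` lie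
in the module generated by a finite set over the subring of `K` generated by a finite set. Then
`T (e (δ e) ^ (2 n)) = 0`. -/
theorem result {L : Type t} [Field L] [LinearOrder L] [IsStrictOrderedRing L]
    {G : Type u2} [Group G] (φ : G →* (L ≃o L)) (hφ : Function.Injective φ)
    (hPL : ∀ g, PiecewiseAffine (φ g)) (K : Type u1) [Field K] [CharZero K] (d : Type u3)
    [Fintype d] [DecidableEq d] (e : Matrix d d (MonoidAlgebra K G)) (he : e * e = e)
    (Ω : Type u4) [Ring Ω] [Algebra K Ω] (𝒜 : ℕ → Submodule K Ω) [GradedAlgebra 𝒜]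
    (M : Type u5) [AddCommGroup M] [Module K M] (δ : Ω →ₗ[K] Ω) (T : Ω →ₗ[K] M)
    (n : ℕ) (hn : 1 ≤ n) (hT : IsCycle (2 * n) 𝒜 δ T)
    (ρ : MonoidAlgebra K G →ₐ[K] Ω) (hρ : ∀ a, ρ a ∈ 𝒜 0)
    (hval : ∀ H : Subgroup G, H.FG → ∃ (s : Finset K) (F : Finset M),
      ∀ (a : H) (l : List H), l.length = 2 * n →
        value δ T ρ a (l.map Subtype.val) ∈
          Submodule.span (Algebra.adjoin ℤ (s : Set K)) (F : Set M)) :
    T ((e.map ρ) * ((e.map ρ).map δ) ^ (2 * n)).trace = 0 := by
  classical
  have hPA : ∀ g, PA (φ g) := hPL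
  have hcyc : Pool.Agent.H23R2.Ch.IsCycle (2 * n) 𝒜 δ T :=
    ⟨hT.deg, hT.sq, hT.leibniz, hT.closed, hT.trace, hT.dim⟩
  have hmap : ∀ (H : Subgroup G) (a : H) (l : List H),
      value δ T ρ a (l.map Subtype.val) = T (ρ (MonoidAlgebra.single (a : G) 1) *
        (l.map fun b : H => δ (ρ (MonoidAlgebra.single (b : G) 1))).prod) := by
    intro H a l
    unfold value
    rw [List.map_map]
    rfl
  let W : Finset G := Finset.univ.biUnion fun i => Finset.univ.biUnion fun j =>
    (e i j).coeff.support
  have hFG : (Subgroup.closure (W : Set G)).FG := ⟨W, rfl⟩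
  have hW : ∀ i j g, (e i j).coeff g ≠ 0 → g ∈ Subgroup.closure (W : Set G) := by
    intro i j g hg
    apply Subgroup.subset_closure
    have h1 : g ∈ W := by
      simp only [W, Finset.mem_biUnion, Finset.mem_univ, true_and]
      exact ⟨i, j, Finsupp.mem_support_iff.2 hg⟩
    exact_mod_cast h1
  obtain ⟨s, F, hsF⟩ := hval _ hFG
  simp only [hmap] at hsF
  have hgrp : Group.FG (Subgroup.closure (W : Set G)) := (Group.fg_iff_subgroup_fg _).2 hFG
  refine Pool.Agent.Y84.PH.cyc_field e he _ hW hn hcyc hρ s F hsF ?_ (Or.inl ?_)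
  · rintro g hg ⟨m, J, hm, hJ, hdiv⟩
    exfalso
    obtain ⟨p, hmp, hp, hcon⟩ := large_prime (φ := φ.comp (Subgroup.closure (W : Set G)).subtype)
      (fun g => hPA g) (hφ.comp (Subgroup.closure (W : Set G)).subtype_injective) hg m
    apply hcon J hJ
    apply hdiv p
    exact (Nat.Prime.coprime_iff_not_dvd hp).2 fun hd =>
      absurd (Nat.le_of_dvd (by omega) hd) (by omega)
  · refine Nat.infinite_setOfPred_prime.mono ?_
    intro p hp
    refine ⟨hp, fun x hx => Subtype.ext (tors_free hφ hPA x p (Nat.Prime.pos hp) ?_)⟩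
    exact congrArg Subtype.val hx

end Pool.Agent.Results.MP_1a2884_al.PiecewiseLinearCycles
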