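import Pool.Agent.Y84.PH.G
import Pool.Agent.X265.Sub.Grow

/-!
# `K₀(K[G])` and cyclic cohomology of positive even degree for groups with orbits of subexponential growth

Let `K` be a field of characteristic zero (a regular ring) and `G` a torsion-free group with a faithful
action on a set `X` whose orbits grow subexponentially (`SubexpOrbits`): for every finite subset `S` of `G`
and every `a > 1` for all large `r` at most `a ^ r` points are reached from any point of `X` by products of
`r` elements of `S`. For example (`Pool.Agent.X265.Sub.Grow`): torsion-free groups of interval exchanges,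
torsion-free subgroups of topological full groups of actions of groups of subexponential growth,
torsion-free contracting groups. If `K₀(K) → K₀(K[G])` is surjective, then all cycles `(Ω, δ, T)` of
dimension `2 n ≥ 2` in the sense of Connes vanish on all idempotent matrices `e` over `K[G]`:
`T (e (δ e) ^ (2 n)) = 0`. We prove this for all cycles whose values on the elements of each finitely
generated subgroup lie in a finitely generated module over a finitely generated subring of `K`. If the
action is not faithful, it remains true for the cycles which vanish on the group elements whose product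
is not `1` but has a power which acts trivially.

Idea of the proof. By the general theorem of the library (`Pool.Agent.Y84.PH`) it is sufficient that no
element `g` all of whose powers act nontrivially is conjugate to a proper power `g ^ n`. Otherwise, if
`x g x⁻¹ = g ^ n`, all `g ^ i x ^ k` with `i < n ^ k` are products of `n k` elements of `{1, g, x}`, and `g` has
orbits with at least `n ^ k` elements; so `n ^ k` points are reached from some point in `n k` steps.
-/

set_option autoImplicit false

namespace Pool.Agent.Results.MP_1a2884_al.SubexponentialCycles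

open Pool.Agent.X265.Sub

universe t u1 u2 u3 u4 u5

/-- `(Ω, δ, T)` is a cycle of dimension `N` with values in the vector space `M`: `Ω` is a graded
algebra with homogeneous components `𝒜 i`, `δ` is a differential of degree one, and `T` is a
closed graded trace which vanishes outside degree `N`. -/
structure IsCycle {K : Type u1} [Field K] {Ω : Type u4} [Ring Ω] [Algebra K Ω] {M : Type u5}
    [AddCommGroup M] [Module K M] (N : ℕ) (𝒜 : ℕ → Submodule K Ω) [GradedAlgebra 𝒜]
    (δ : Ω →ₗ[K] Ω) (T : Ω →ₗ[K] M) : Prop where
  deg : ∀ i, ∀ x ∈ 𝒜 i, δ x ∈ 𝒜 (i + 1)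
  sq : ∀ x, δ (δ x) = 0
  leibniz : ∀ i, ∀ x ∈ 𝒜 i, ∀ y, δ (x * y) = δ x * y + (-1) ^ i * (x * δ y)
  closed : ∀ x, T (δ x) = 0
  trace : ∀ i j, ∀ x ∈ 𝒜 i, ∀ y ∈ 𝒜 j, T (x * y) = T ((-1) ^ (i * j) * (y * x))
  dim : ∀ i, i ≠ N → ∀ x ∈ 𝒜 i, T x = 0

/-- The value of the cycle on the group elements `a`, `b₁`, …, `b_r`. -/
noncomputable def value {K : Type u1} [Field K] {G : Type u2} [Group G] {Ω : Type u4} [Ring Ω]
    [Algebra K Ω] {M : Type u5} [AddCommGroup M] [Module K M] (δ : Ω →ₗ[K] Ω) (T : Ω →ₗ[K] M)
    (ρ : MonoidAlgebra K G →ₐ[K] Ω) (a : G) (l : List G) : M :=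
  T (ρ (MonoidAlgebra.single a 1) * (l.map fun b => δ (ρ (MonoidAlgebra.single b 1))).prod)

/-- Let `G` be a torsion-free group acting on the set `X` with orbits of subexponential growth, `K` a
field of characteristic zero, `e` an idempotent matrix over `K[G]` and `(Ω, δ, T)` a cycle over `K[G]` of
dimension `2 n ≥ 2` with values in the vector space `M`, such that for every finitely generated subgroup
`H` of `G` the values of the cycle on the elements of `H` lie in the module generated by a finite set
over the subring of `K` generated by a finite set. Suppose that the cycle vanishes on the group elements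
`a, b₁, …, b_{2n}` whose product is not `1` but has a positive power which acts trivially on `X` (this is
no condition if the action is faithful). Then `T (e (δ e) ^ (2 n)) = 0`. -/
theorem result {G : Type u2} [Group G] {X : Type t} [MulAction G X] (hX : SubexpOrbits G X)
    (hG : ∀ (g : G) (m : ℕ), 0 < m → g ^ m = 1 → g = 1)
    (K : Type u1) [Field K] [CharZero K] (d : Type u3)
    [Fintype d] [DecidableEq d] (e : Matrix d d (MonoidAlgebra K G)) (he : e * e = e)
    (Ω : Type u4) [Ring Ω] [Algebra K Ω] (𝒜 : ℕ → Submodule K Ω) [GradedAlgebra 𝒜]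
    (M : Type u5) [AddCommGroup M] [Module K M] (δ : Ω →ₗ[K] Ω) (T : Ω →ₗ[K] M)
    (n : ℕ) (hn : 1 ≤ n) (hT : IsCycle (2 * n) 𝒜 δ T)
    (ρ : MonoidAlgebra K G →ₐ[K] Ω) (hρ : ∀ a, ρ a ∈ 𝒜 0)
    (hval : ∀ H : Subgroup G, H.FG → ∃ (s : Finset K) (F : Finset M),
      ∀ (a : H) (l : List H), l.length = 2 * n →
        value δ T ρ a (l.map Subtype.val) ∈
          Submodule.span (Algebra.adjoin ℤ (s : Set K)) (F : Set M))
    (hker : ∀ (a : G) (l : List G), l.length = 2 * n → a * l.prod ≠ 1 →
      (∃ m : ℕ, 0 < m ∧ ∀ x : X, (a * l.prod) ^ m • x = x) → value δ T ρ a l = 0) :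
    T ((e.map ρ) * ((e.map ρ).map δ) ^ (2 * n)).trace = 0 := by
  classical
  have hcyc : Pool.Agent.H23R2.Ch.IsCycle (2 * n) 𝒜 δ T :=
    ⟨hT.deg, hT.sq, hT.leibniz, hT.closed, hT.trace, hT.dim⟩
  have hmap : ∀ (H : Subgroup G) (a : H) (l : List H),
      value δ T ρ a (l.map Subtype.val) = T (ρ (MonoidAlgebra.single (a : G) 1) *
        (l.map fun b : H => δ (ρ (MonoidAlgebra.single (b : G) 1))).prod) := by
    intro H a l
    unfold value
    rw [List.map_map]
    rfl
  let W : Finset G := Finset.univ.biUnion fun i => Finset.univ.biUnion fun j =>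
    (e i j).coeff.support
  have hFG : (Subgroup.closure (W : Set G)).FG := ⟨W, rfl⟩
  have hW : ∀ i j g, (e i j).coeff g ≠ 0 → g ∈ Subgroup.closure (W : Set G) := by
    intro i j g hg
    apply Subgroup.subset_closure
    have h1 : g ∈ W := by
      simp only [W, Finset.mem_biUnion, Finset.mem_univ, true_and]
      exact ⟨i, j, Finsupp.mem_support_iff.2 hg⟩
    exact_mod_cast h1
  obtain ⟨s, F, hsF⟩ := hval _ hFG
  simp only [hmap] at hsF
  refine Pool.Agent.Y84.PH.cyc_field e he _ hW hn hcyc hρ s F hsF ?_ (Or.inl ?_)
  · rintro g hg ⟨m, J, hm, hJ, hdiv⟩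
    left
    intro a l hl hconj
    rw [← hmap]
    have hprod : (a : G) * (l.map Subtype.val).prod = ((a * l.prod : Subgroup.closure (W : Set G)) : G) := by
      rw [Subgroup.coe_mul]
      congr 1
      exact (map_list_prod (Subgroup.closure (W : Set G)).subtype l).symm
    have hc2 : IsConj (g : G) ((a : G) * (l.map Subtype.val).prod) := by
      rw [hprod]
      obtain ⟨c, hc⟩ := isConj_iff.1 hconj
      exact isConj_iff.2 ⟨c, by simpa using congrArg Subtype.val hc⟩
    apply hker _ _ (by rw [List.length_map, hl])
    · intro h1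
      rw [h1] at hc2
      exact hg (Subtype.ext (isConj_one_right.1 hc2.symm))
    · by_contra hcon
      push Not at hcon
      refine not_conj hX (g := (g : G)) ?_ (n := (m + 1) ^ J) ?_ ?_
      · intro k hk
        obtain ⟨x, hx⟩ := hcon k hk
        obtain ⟨c, hc⟩ := isConj_iff.1 hc2
        refine ⟨c⁻¹ • x, fun h => hx ?_⟩
        rw [← hc, conj_pow, mul_smul, mul_smul, h, smul_inv_smul]
      · exact (show 2 ≤ m + 1 by omega).trans (Nat.le_self_pow (by omega) _)
      · have h3 := hdiv (m + 1) (by simp)
        obtain ⟨c, hc⟩ := isConj_iff.1 h3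
        exact isConj_iff.2 ⟨c, by simpa using congrArg Subtype.val hc⟩
  · refine Nat.infinite_setOfPred_prime.mono ?_
    intro p hp
    refine ⟨hp, fun x hx => Subtype.ext (hG x p (Nat.Prime.pos hp) ?_)⟩
    exact congrArg Subtype.val hx

end Pool.Agent.Results.MP_1a2884_al.SubexponentialCycles
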